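import Mathlib
import Pool.Agent.Helper28.LCN.LcsComm

set_option autoImplicit false

/-!
# Polynomial sequences in a group form a group (Lazard, Leibman)
-/

namespace Pool.Agent.Q183.LL

open scoped commutatorElement

variable {G : Type} [Group G]

/-- the difference operator -/
def D (g : ℤ → G) (n : ℤ) : G := g (n + 1) * (g n)⁻¹

/-- the shift -/
def sh (l : ℤ) (g : ℤ → G) (n : ℤ) : G := g (n + l)

/-- sequences whose first `k` differences are in the filtration, starting at `s` -/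
def Pol (F : ℕ → Subgroup G) : ℕ → ℕ → Set (ℤ → G)
  | 0, s => {g | ∀ n, g n ∈ F s}
  | k + 1, s => {g | (∀ n, g n ∈ F s) ∧ D g ∈ Pol F k (s + 1)}

variable {F : ℕ → Subgroup G}

theorem Pol_val {k s : ℕ} {g : ℤ → G} (h : g ∈ Pol F k s) (n : ℤ) : g n ∈ F s := by
  cases k with
  | zero => exact h n
  | succ k => exact h.1 n

theorem Pol_down {k s : ℕ} : Pol F (k + 1) s ⊆ Pol F k s := by
  induction k generalizing s with
  | zero => intro g hg; exact hg.1
  | succ k ih => intro g hg; exact ⟨hg.1, ih hg.2⟩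

theorem Pol_anti (hF : ∀ i, F (i + 1) ≤ F i) {k s : ℕ} : Pol F k (s + 1) ⊆ Pol F k s := by
  induction k generalizing s with
  | zero => intro g hg n; exact hF _ (hg n)
  | succ k ih => intro g hg; exact ⟨fun n => hF _ (hg.1 n), ih hg.2⟩

theorem Pol_anti' (hF : ∀ i, F (i + 1) ≤ F i) {k s t : ℕ} (hst : s ≤ t) :
    Pol F k t ⊆ Pol F k s := by
  induction t, hst using Nat.le_induction with
  | base => exact subset_rfl
  | succ t _ ih => exact (Pol_anti hF).trans ih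

theorem Pol_one {k s : ℕ} : (1 : ℤ → G) ∈ Pol F k s := by
  induction k generalizing s with
  | zero => intro n; exact (F s).one_mem
  | succ k ih =>
    refine ⟨fun n => (F s).one_mem, ?_⟩
    have : D (1 : ℤ → G) = 1 := by
      funext n
      simp [D]
    rw [this]
    exact ih

theorem D_sh (l : ℤ) (g : ℤ → G) : D (sh l g) = sh l (D g) := by
  funext n
  unfold D sh
  rw [show n + 1 + l = n + l + 1 by ring]

theorem Pol_sh {k s : ℕ} {g : ℤ → G} (hg : g ∈ Pol F k s) (l : ℤ) : sh l g ∈ Pol F k s := by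
  induction k generalizing s g with
  | zero => intro n; exact hg _
  | succ k ih =>
    refine ⟨fun n => hg.1 _, ?_⟩
    rw [D_sh]
    exact ih hg.2

/-- Lazard and Leibman: products, inverses and commutators of polynomial sequences -/
theorem main (hF : ∀ i, F (i + 1) ≤ F i) (hc : ∀ i j, ⁅F i, F j⁆ ≤ F (i + j)) (k : ℕ) :
    (∀ s, ∀ g ∈ Pol F k s, ∀ h ∈ Pol F k s, g * h ∈ Pol F k s) ∧
    (∀ s, ∀ g ∈ Pol F k s, g⁻¹ ∈ Pol F k s) ∧
    (∀ i j, ∀ g ∈ Pol F k i, ∀ h ∈ Pol F k j, ⁅g, h⁆ ∈ Pol F k (i + j)) := by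
  have hcom : ∀ i j, ∀ x ∈ F i, ∀ y ∈ F j, ⁅x, y⁆ ∈ F (i + j) := fun i j x hx y hy =>
    hc i j (Subgroup.commutator_mem_commutator hx hy)
  have hval : ∀ (g h : ℤ → G) (n : ℤ), (⁅g, h⁆ : ℤ → G) n = ⁅g n, h n⁆ := fun g h n => rfl
  induction k with
  | zero =>
    refine ⟨fun s g hg h hh n => (F s).mul_mem (hg n) (hh n), fun s g hg n => (F s).inv_mem (hg n),
      fun i j g hg h hh n => ?_⟩
    rw [hval]
    exact hcom i j _ (hg n) _ (hh n)
  | succ k ih =>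
    obtain ⟨ihm, ihi, ihc⟩ := ih
    -- conjugation
    have conj : ∀ t s, ∀ g ∈ Pol F k t, ∀ x ∈ Pol F k s, g * x * g⁻¹ ∈ Pol F k s := by
      intro t s g hg x hx
      have h1 : g * x * g⁻¹ = ⁅g, x⁆ * x := by
        rw [commutatorElement_def]
        group
      rw [h1]
      exact ihm s _ (Pol_anti' hF (by omega) (ihc t s g hg x hx)) _ hx
    refine ⟨?_, ?_, ?_⟩
    · rintro s g hg h hh
      refine ⟨fun n => (F s).mul_mem (hg.1 n) (hh.1 n), ?_⟩
      have e : D (g * h) = D g * (g * D h * g⁻¹) := by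
        funext n
        simp only [D, Pi.mul_apply, Pi.inv_apply]
        group
      rw [e]
      exact ihm _ _ hg.2 _ (conj s _ g (Pol_down hg) _ hh.2)
    · rintro s g hg
      refine ⟨fun n => (F s).inv_mem (hg.1 n), ?_⟩
      have e : D (g⁻¹) = g⁻¹ * (D g)⁻¹ * g⁻¹⁻¹ := by
        funext n
        simp only [D, Pi.mul_apply, Pi.inv_apply]
        group
      rw [e]
      exact conj s _ _ (ihi s g (Pol_down hg)) _ (ihi _ _ hg.2)
    · rintro i j g hg h hh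
      refine ⟨fun n => hcom i j _ (hg.1 n) _ (hh.1 n), ?_⟩
      have hg0 : g ∈ Pol F k i := Pol_down hg
      have hh0 : h ∈ Pol F k j := Pol_down hh
      have hc0 : ⁅g, h⁆ ∈ Pol F k (i + j) := ihc i j g hg0 h hh0
      have ha : D g ∈ Pol F k (i + 1) := hg.2
      have hb : D h ∈ Pol F k (j + 1) := hh.2
      have e : D ⁅g, h⁆ = (D g * ⁅g, D h⁆ * (D g)⁻¹) *
          ((D g * ⁅D h, ⁅g, h⁆⁆ * (D g)⁻¹) * ⁅D g, ⁅g, h⁆⁆) *
          (⁅g, h⁆ * (⁅D g, D h⁆ * (D h * ⁅D g, h⁆ * (D h)⁻¹)) * ⁅g, h⁆⁻¹) := by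
        funext n
        simp only [D, Pi.mul_apply, Pi.inv_apply, commutatorElement_def]
        group
      rw [e]
      have m1 : ∀ x ∈ Pol F k (i + j + 1), ∀ y ∈ Pol F k (i + j + 1),
          x * y ∈ Pol F k (i + j + 1) := fun x hx y hy => ihm _ x hx y hy
      refine m1 _ (m1 _ ?_ _ (m1 _ ?_ _ ?_)) _ ?_
      · exact conj _ _ _ ha _ (Pol_anti' hF (by omega) (ihc i (j + 1) g hg0 _ hb))
      · exact conj _ _ _ ha _ (Pol_anti' hF (by omega) (ihc (j + 1) (i + j) _ hb _ hc0))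
      · exact Pol_anti' hF (by omega) (ihc (i + 1) (i + j) _ ha _ hc0)
      · refine conj _ _ _ hc0 _ (m1 _ ?_ _ ?_)
        · exact Pol_anti' hF (by omega) (ihc (i + 1) (j + 1) _ ha _ hb)
        · exact conj _ _ _ hb _ (Pol_anti' hF (by omega) (ihc (i + 1) j _ ha _ hh0))

/-- all differences -/
def PolS (F : ℕ → Subgroup G) (s : ℕ) : Set (ℤ → G) := {g | ∀ k, g ∈ Pol F k s}

theorem PolS_val {s : ℕ} {g : ℤ → G} (h : g ∈ PolS F s) (n : ℤ) : g n ∈ F s := Pol_val (h 0) n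

theorem PolS_D {s : ℕ} {g : ℤ → G} (h : g ∈ PolS F s) : D g ∈ PolS F (s + 1) :=
  fun k => (h (k + 1)).2

theorem PolS_sh {s : ℕ} {g : ℤ → G} (h : g ∈ PolS F s) (l : ℤ) : sh l g ∈ PolS F s :=
  fun k => Pol_sh (h k) l

/-- the group of polynomial sequences of weight `s` -/
def PolG (F : ℕ → Subgroup G) (hF : ∀ i, F (i + 1) ≤ F i) (hc : ∀ i j, ⁅F i, F j⁆ ≤ F (i + j))
    (s : ℕ) : Subgroup (ℤ → G) where
  carrier := PolS F s
  mul_mem' := fun ha hb k => (main hF hc k).1 s _ (ha k) _ (hb k)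
  one_mem' := fun _ => Pol_one
  inv_mem' := fun ha k => (main hF hc k).2.1 s _ (ha k)

theorem PolG_comm {hF : ∀ i, F (i + 1) ≤ F i} {hc : ∀ i j, ⁅F i, F j⁆ ≤ F (i + j)} {i j : ℕ}
    {g h : ℤ → G} (hg : g ∈ PolG F hF hc i) (hh : h ∈ PolG F hF hc j) :
    ⁅g, h⁆ ∈ PolG F hF hc (i + j) := fun k => (main hF hc k).2.2 i j _ (hg k) _ (hh k)

theorem PolG_anti {hF : ∀ i, F (i + 1) ≤ F i} {hc : ∀ i j, ⁅F i, F j⁆ ≤ F (i + j)} {s t : ℕ}
    (hst : s ≤ t) : PolG F hF hc t ≤ PolG F hF hc s := fun _ hg k => Pol_anti' hF hst (hg k)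

/-- the telescoping differences with any step -/
theorem PolG_diff {hF : ∀ i, F (i + 1) ≤ F i} {hc : ∀ i j, ⁅F i, F j⁆ ≤ F (i + j)} {s : ℕ}
    {g : ℤ → G} (hg : g ∈ PolG F hF hc s) (l : ℤ) :
    sh l g * g⁻¹ ∈ PolG F hF hc (s + 1) := by
  have hstep : ∀ l : ℤ, sh (l + 1) g * (sh l g)⁻¹ ∈ PolG F hF hc (s + 1) := by
    intro l
    have e : sh (l + 1) g * (sh l g)⁻¹ = sh l (D g) := by
      funext n
      simp only [sh, D, Pi.mul_apply, Pi.inv_apply]
      rw [show n + (l + 1) = n + l + 1 by ring]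
    rw [e]
    exact PolS_sh (PolS_D hg) l
  induction l using Int.induction_on with
  | zero =>
    have : sh 0 g * g⁻¹ = 1 := by
      funext n
      simp [sh]
    rw [this]
    exact one_mem _
  | succ l ih =>
    have e : sh ((l : ℤ) + 1) g * g⁻¹ = (sh ((l : ℤ) + 1) g * (sh l g)⁻¹) * (sh l g * g⁻¹) := by
      group
    rw [e]
    exact mul_mem (hstep l) ih
  | pred l ih =>
    have e : sh (-(l : ℤ) - 1) g * g⁻¹ =
        (sh (-(l : ℤ) - 1 + 1) g * (sh (-(l : ℤ) - 1) g)⁻¹)⁻¹ * (sh (-(l : ℤ)) g * g⁻¹) := by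
      rw [show -(l : ℤ) - 1 + 1 = -(l : ℤ) by ring]
      group
    rw [e]
    exact mul_mem (inv_mem (hstep _)) ih

end Pool.Agent.Q183.LL
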